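import Pool.Agent.Helper79.CF.Spec

set_option autoImplicit false

namespace Pool.Agent.Helper22.CF.FLR

open Finset Pool.Agent.Helper79.CF

theorem main : S_FLR := by
  intro P u x n t h1 h2 hamb
  unfold amb at hamb
  rw [decide_eq_false_iff_not, not_le] at hamb
  have hu : (0 : ℝ) < 2 ^ u := by positivity
  set A : ℕ := (2 ^ u + x) * P n with hA
  have hdiv : 2 ^ u * (A / 2 ^ u) + A % 2 ^ u = A := Nat.div_add_mod A (2 ^ u)
  have hmv : mv P u x n = A / 2 ^ u := rfl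
  rw [hmv]
  have hdivR : (2 : ℝ) ^ u * ((A / 2 ^ u : ℕ) : ℝ) + ((A % 2 ^ u : ℕ) : ℝ) = (A : ℝ) := by
    exact_mod_cast hdiv
  have hAR : (A : ℝ) = (2 ^ u + x) * P n := by rw [hA]; push_cast; ring
  have hambR : ((A % 2 ^ u : ℕ) : ℝ) + P n < 2 ^ u := by exact_mod_cast hamb
  have hP : (0 : ℝ) ≤ P n := Nat.cast_nonneg _
  have hmod : (0 : ℝ) ≤ ((A % 2 ^ u : ℕ) : ℝ) := Nat.cast_nonneg _
  have lo : (A : ℝ) ≤ 2 ^ u * ((1 + t) * P n) := by
    rw [hAR]; nlinarith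
  have hi : 2 ^ u * ((1 + t) * P n) ≤ (A : ℝ) + P n := by
    rw [hAR]; nlinarith
  have ht0 : (0 : ℝ) ≤ (1 + t) * P n := by
    have : (0 : ℝ) ≤ 2 ^ u * ((1 + t) * P n) := le_trans (Nat.cast_nonneg _) lo
    exact nonneg_of_mul_nonneg_right this hu
  rw [Nat.floor_eq_iff ht0]
  constructor
  · have : (2 : ℝ) ^ u * ((A / 2 ^ u : ℕ) : ℝ) ≤ 2 ^ u * ((1 + t) * P n) := by linarith
    exact le_of_mul_le_mul_left this hu
  · have : (2 : ℝ) ^ u * ((1 + t) * P n) < 2 ^ u * (((A / 2 ^ u : ℕ) : ℝ) + 1) := by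
      rw [mul_add, mul_one]; linarith
    exact lt_of_mul_lt_mul_left this hu.le

end Pool.Agent.Helper22.CF.FLR
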