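import Pool.Agent.Helper79.CF.Spec

set_option autoImplicit false

namespace Pool.Agent.Helper22.CF.ELL

open Finset Pool.Agent.Helper79.CF

theorem main : S_ELL := by
  intro j m hj hm
  have hj0 : (0 : ℝ) < j := by exact_mod_cast hj
  have hm0 : (0 : ℝ) < m := by exact_mod_cast hm
  have hm1 : (1 : ℝ) ≤ m := by exact_mod_cast hm
  have hlogm : 0 ≤ Real.log m := Real.log_nonneg hm1
  set L : ℝ := Real.log ((j : ℝ) + 1) - Real.log j with hL
  have hLd : L = Real.log (((j : ℝ) + 1) / j) := (Real.log_div (by positivity) (by positivity)).symm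
  have hL1 : L ≤ 1 / j := by
    rw [hLd]
    have := Real.log_le_sub_one_of_pos (show (0 : ℝ) < ((j : ℝ) + 1) / j by positivity)
    have e : ((j : ℝ) + 1) / j - 1 = 1 / j := by field_simp; ring
    linarith
  have hL2 : 1 / ((j : ℝ) + 1) ≤ L := by
    have h := Real.log_le_sub_one_of_pos (show (0 : ℝ) < (j : ℝ) / ((j : ℝ) + 1) by positivity)
    have e : (j : ℝ) / ((j : ℝ) + 1) - 1 = -(1 / ((j : ℝ) + 1)) := by field_simp; ring
    rw [Real.log_div (by positivity) (by positivity), e] at h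
    rw [hL]
    linarith
  have hLpos : 0 < L := lt_of_lt_of_le (by positivity) hL2
  set Y : ℝ := Real.log m / L with hY
  have hY0 : 0 ≤ Y := div_nonneg hlogm hLpos.le
  have hY1 : j * Real.log m ≤ Y := by
    rw [hY, le_div_iff₀ hLpos]
    have h1 : (j : ℝ) * L ≤ 1 := by
      have := mul_le_mul_of_nonneg_left hL1 hj0.le
      rwa [mul_one_div_cancel hj0.ne'] at this
    nlinarith
  have hY2 : Y ≤ ((j : ℝ) + 1) * Real.log m := by
    rw [hY, div_le_iff₀ hLpos]
    have h1 : 1 ≤ ((j : ℝ) + 1) * L := by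
      have := mul_le_mul_of_nonneg_left hL2 (show (0 : ℝ) ≤ (j : ℝ) + 1 by positivity)
      rwa [mul_one_div_cancel (show ((j : ℝ) + 1) ≠ 0 by positivity)] at this
    nlinarith
  have hcond : ∀ a : ℕ, (j + 1) ^ a ≤ m * j ^ a ↔ (a : ℝ) ≤ Y := by
    intro a
    have h1 : (j + 1) ^ a ≤ m * j ^ a ↔ ((j : ℝ) + 1) ^ a ≤ (m : ℝ) * (j : ℝ) ^ a := by
      exact_mod_cast Iff.rfl
    rw [h1, ← Real.log_le_log_iff (by positivity) (by positivity), Real.log_mul (by positivity)
      (by positivity), Real.log_pow, Real.log_pow, hY, le_div_iff₀ hLpos, hL]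
    constructor
    · intro h; linarith
    · intro h; linarith
  have hell : ell j m = ⌊Y⌋₊ + 1 := by
    unfold ell
    have h1 : ∑ a ∈ range ((j + 1) * m), (decide ((j + 1) ^ a ≤ m * j ^ a)).toNat
        = ((range ((j + 1) * m)).filter fun a => (j + 1) ^ a ≤ m * j ^ a).card := by
      rw [card_filter]
      apply sum_congr rfl
      intro a _
      by_cases h : (j + 1) ^ a ≤ m * j ^ a <;> simp [h]
    rw [h1]
    have h2 : ((range ((j + 1) * m)).filter fun a => (j + 1) ^ a ≤ m * j ^ a)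
        = range (⌊Y⌋₊ + 1) := by
      ext a
      rw [mem_filter, mem_range, mem_range, hcond, Nat.lt_succ_iff, Nat.le_floor_iff hY0]
      constructor
      · exact fun h => h.2
      · intro h
        refine ⟨?_, h⟩
        have h3 : (a : ℝ) < ((j : ℝ) + 1) * m := by
          have h4 : Real.log m ≤ (m : ℝ) - 1 := Real.log_le_sub_one_of_pos hm0
          have h5 : ((j : ℝ) + 1) * Real.log m ≤ ((j : ℝ) + 1) * ((m : ℝ) - 1) :=
            mul_le_mul_of_nonneg_left h4 (by positivity)
          linarith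
        exact_mod_cast h3
    rw [h2, card_range]
  rw [hell]
  push_cast
  have f1 : Y < (⌊Y⌋₊ : ℝ) + 1 := Nat.lt_floor_add_one Y
  have f2 : (⌊Y⌋₊ : ℝ) ≤ Y := Nat.floor_le hY0
  rw [abs_le]
  constructor
  · linarith
  · linarith

end Pool.Agent.Helper22.CF.ELL
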